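import Pool.Prelude.Def_F_c31e40fa
import Pool.Agent.H712R2.MultibrotConnected
import Pool.Agent.Y736.RN.D

set_option autoImplicit false

/-! # Infinitely renormalizable parameters with bounds: rates, the dynamical part (helper259) -/

namespace Pool.Agent.Q259.FR

open Complex Filter Topology Set Metric
open Pool.Agent.H712R2 (P P_zero fc mem_multibrot_iff)
open Pool.Agent.Y736.RN (iter_P cont_it diff_it_y diff_it_c)
open N62a1eb23

variable {d : ℕ}

/-- Lipschitz bound along the critical orbit -/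
def Lip (d p : ℕ) (c : ℂ) (r L : ℝ) : Prop :=
  ∀ (i : ℕ) (x y : ℂ), ‖x - P d (p * i) c‖ ≤ r → ‖y - P d (p * i) c‖ ≤ r →
    ‖(fc d c)^[p] x - (fc d c)^[p] y‖ ≤ L * ‖x - y‖

/-- bound of the dependence on the parameter along the critical orbit -/
def Dev (d p : ℕ) (c : ℂ) (e S : ℝ) : Prop :=
  ∀ (i : ℕ) (x c' : ℂ), ‖x - P d (p * i) c‖ ≤ e → S * ‖c' - c‖ ≤ e →
    ‖(fc d c')^[p] x - (fc d c)^[p] x‖ ≤ S * ‖c' - c‖

theorem der_of_bounds {c : ℂ} {p : ℕ} {U : Set ℂ} {C r : ℝ} (hr : 0 < r)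
    (hball : ∀ n : ℕ, ball (P d (n * p) c) r ⊆ U)
    (hdiam : ∀ z ∈ U, ∀ z' ∈ U, ‖(fc d c)^[p] z - (fc d c)^[p] z'‖ ≤ C * r) (i : ℕ) :
    ∀ z ∈ closedBall (P d (p * i) c) (r / 2), ‖deriv ((fc d c)^[p]) z‖ ≤ 2 * C := by
  intro z hz
  have hsub : ball z (r / 2) ⊆ U := by
    intro w hw
    apply hball i
    rw [Nat.mul_comm, mem_ball]
    rw [mem_ball] at hw
    rw [mem_closedBall] at hz
    have := dist_triangle w z (P d (p * i) c)
    linarith
  have h1 : MapsTo ((fc d c)^[p]) (ball z (r / 2)) (closedBall ((fc d c)^[p] z) (C * r)) := by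
    intro w hw
    rw [mem_closedBall, dist_eq_norm]
    exact hdiam w (hsub hw) z (hsub (mem_ball_self (half_pos hr)))
  have h2 := Complex.norm_deriv_le_div_of_mapsTo_ball
    (diff_it_y d p c).differentiableOn h1 (half_pos hr)
  rwa [show C * r / (r / 2) = 2 * C by field_simp] at h2

theorem lip_of_bounds {c : ℂ} {p : ℕ} {U : Set ℂ} {C r : ℝ} (hr : 0 < r)
    (hball : ∀ n : ℕ, ball (P d (n * p) c) r ⊆ U)
    (hdiam : ∀ z ∈ U, ∀ z' ∈ U, ‖(fc d c)^[p] z - (fc d c)^[p] z'‖ ≤ C * r) :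
    Lip d p c (r / 2) (2 * C) := by
  intro i x y hx hy
  exact (convex_closedBall (P d (p * i) c) (r / 2)).norm_image_sub_le_of_norm_deriv_le
    (fun z _ => (diff_it_y d p c) z) (der_of_bounds hr hball hdiam i)
    (by rw [mem_closedBall, dist_eq_norm]; exact hy)
    (by rw [mem_closedBall, dist_eq_norm]; exact hx)

theorem deriv_zero (hd : 2 ≤ d) {p : ℕ} (hp : 1 ≤ p) (c : ℂ) : deriv ((fc d c)^[p]) 0 = 0 := by
  obtain ⟨m, rfl⟩ : ∃ m, p = m + 1 := ⟨p - 1, by omega⟩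
  have h1 : HasDerivAt (fc d c) 0 0 := by
    have h2 := (hasDerivAt_pow d (0 : ℂ)).add_const c
    rw [zero_pow (by omega : d - 1 ≠ 0), mul_zero] at h2
    exact h2
  have h2 : HasDerivAt ((fc d c)^[m]) (deriv ((fc d c)^[m]) (fc d c 0)) (fc d c 0) :=
    ((diff_it_y d m c) _).hasDerivAt
  have h3 := h2.comp 0 h1
  rw [mul_zero] at h3
  rw [Function.iterate_succ]
  exact h3.deriv

theorem deriv_small (hd : 2 ≤ d) {p : ℕ} (hp : 1 ≤ p) {c : ℂ} {C r : ℝ} (hr : 0 < r)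
    (hder : ∀ z ∈ closedBall (0 : ℂ) (r / 2), ‖deriv ((fc d c)^[p]) z‖ ≤ 2 * C) :
    ∀ z ∈ ball (0 : ℂ) (r / 2), ‖deriv ((fc d c)^[p]) z‖ ≤ 4 * C / r * ‖z‖ := by
  intro z hz
  have h0 := deriv_zero hd hp c
  have h1 : DifferentiableOn ℂ (deriv ((fc d c)^[p])) (ball (0 : ℂ) (r / 2)) :=
    ((diff_it_y d p c).differentiableOn.deriv isOpen_ball)
  have h2 : MapsTo (deriv ((fc d c)^[p])) (ball (0 : ℂ) (r / 2))
      (closedBall (deriv ((fc d c)^[p]) 0) (2 * C)) := by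
    intro w hw
    rw [h0, mem_closedBall_zero_iff]
    exact hder w (ball_subset_closedBall hw)
  have h3 := Complex.dist_le_div_mul_dist_of_mapsTo_ball h1 h2 hz
  rw [h0, dist_zero_right, dist_zero_right] at h3
  rwa [show 2 * C / (r / 2) = 4 * C / r by field_simp; ring] at h3

/-- the orbit of a point near `P d (p * i) c` -/
theorem follow {c : ℂ} {p : ℕ} {r L : ℝ} (hL : 1 ≤ L) (hr : 0 ≤ r) (hlip : Lip d p c r L) (i : ℕ)
    {x : ℂ} {n : ℕ} (hx : L ^ n * ‖x - P d (p * i) c‖ ≤ r) :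
    ∀ j ≤ n + 1, ‖((fc d c)^[p])^[j] x - P d (p * (i + j)) c‖ ≤ L ^ j * ‖x - P d (p * i) c‖ := by
  intro j
  induction j with
  | zero =>
    intro _
    simp
  | succ j ih =>
    intro hj
    have h1 := ih (by omega)
    have h2 : L ^ j ≤ L ^ n := pow_le_pow_right₀ hL (by omega)
    have h3 : ‖((fc d c)^[p])^[j] x - P d (p * (i + j)) c‖ ≤ r :=
      h1.trans ((mul_le_mul_of_nonneg_right h2 (norm_nonneg _)).trans hx)
    have h4 := hlip (i + j) _ (P d (p * (i + j)) c) h3 (by rw [sub_self, norm_zero]; exact hr)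
    rw [iter_P] at h4
    rw [Function.iterate_succ_apply', show p * (i + (j + 1)) = p + p * (i + j) by ring]
    refine h4.trans ?_
    rw [pow_succ']
    have h5 : 0 ≤ L := by linarith
    calc L * ‖((fc d c)^[p])^[j] x - P d (p * (i + j)) c‖
        ≤ L * (L ^ j * ‖x - P d (p * i) c‖) := mul_le_mul_of_nonneg_left h1 h5
      _ = L * L ^ j * ‖x - P d (p * i) c‖ := by ring

/-- the constant is at least `2` -/
theorem two_le {c : ℂ} {p : ℕ} {U : Set ℂ} {C r : ℝ} (hr : 0 < r)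
    (hball : ∀ n : ℕ, ball (P d (n * p) c) r ⊆ U) (hsub : U ⊆ (fc d c)^[p] '' U)
    (hdiam : ∀ z ∈ U, ∀ z' ∈ U, ‖(fc d c)^[p] z - (fc d c)^[p] z'‖ ≤ C * r) : 2 ≤ C := by
  have hb0 : ball (0 : ℂ) r ⊆ U := by
    have := hball 0
    rwa [Nat.zero_mul, P_zero] at this
  have h1 : ∀ t : ℝ, t < 2 → t ≤ C := by
    intro t ht
    obtain ⟨s, hs⟩ : ∃ s, s = max (t / 2 * r) 0 := ⟨_, rfl⟩
    have hs0 : 0 ≤ s := by rw [hs]; exact le_max_right _ _
    have hsr : s < r := by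
      rw [hs]
      refine max_lt ?_ hr
      nlinarith
    have hst : t / 2 * r ≤ s := by rw [hs]; exact le_max_left _ _
    have hz1 : ((s : ℝ) : ℂ) ∈ ball (0 : ℂ) r := by
      rw [mem_ball_zero_iff, Complex.norm_real, Real.norm_of_nonneg hs0]
      exact hsr
    have hz2 : (((-s : ℝ) : ℝ) : ℂ) ∈ ball (0 : ℂ) r := by
      rw [mem_ball_zero_iff, Complex.norm_real, Real.norm_eq_abs, abs_neg, abs_of_nonneg hs0]
      exact hsr
    obtain ⟨w1, hw1, hw1e⟩ := hsub (hb0 hz1)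
    obtain ⟨w2, hw2, hw2e⟩ := hsub (hb0 hz2)
    have h2 := hdiam w1 hw1 w2 hw2
    rw [hw1e, hw2e, ← Complex.ofReal_sub, Complex.norm_real, sub_neg_eq_add,
      Real.norm_of_nonneg (by linarith)] at h2
    by_contra hcon
    push Not at hcon
    nlinarith
  exact le_of_forall_lt_imp_le_of_dense h1

theorem r_lower (hd : 2 ≤ d) {c : ℂ} {p q : ℕ} (hp : 1 ≤ p) (hq : 1 ≤ q) {U U' : Set ℂ}
    {C r C' r' : ℝ} (hr : 0 < r) (hr' : 0 < r') (hball : ∀ n : ℕ, ball (P d (n * p) c) r ⊆ U)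
    (hdiam : ∀ z ∈ U, ∀ z' ∈ U, ‖(fc d c)^[p] z - (fc d c)^[p] z'‖ ≤ C * r)
    (hball' : ∀ n : ℕ, ball (P d (n * (p * q)) c) r' ⊆ U')
    (hdiam' : ∀ z ∈ U', ∀ z' ∈ U', ‖(fc d c)^[p * q] z - (fc d c)^[p * q] z'‖ ≤ C' * r')
    (hsub' : U' ⊆ (fc d c)^[p * q] '' U') (hC : 2 ≤ C) (hC' : 2 ≤ C') :
    r ≤ r' * (C' ^ 2 * (2 * C) ^ q) := by
  obtain ⟨m, rfl⟩ : ∃ m, q = m + 1 := ⟨q - 1, by omega⟩
  have hL1 : 1 ≤ 2 * C := by linarith
  have hLm : 1 ≤ (2 * C) ^ m := one_le_pow₀ hL1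
  by_cases h' : (2 * C) ^ m * (C' * r') ≤ r / 4
  · obtain ⟨s, hs⟩ : ∃ s, s = C' * r' := ⟨_, rfl⟩
    rw [← hs] at h' hdiam'
    have h : (2 * C) ^ m * s ≤ r / 2 := by linarith
    have hs0 : 0 < s := by rw [hs]; positivity
    have hsr : s < r / 2 := by nlinarith
    have hb0 : ball (0 : ℂ) r' ⊆ U' := by
      have := hball' 0
      rwa [Nat.zero_mul, P_zero] at this
    have h0U : (0 : ℂ) ∈ U' := hb0 (mem_ball_self hr')
    have hU's : ∀ w ∈ U', ∀ w' ∈ U', ‖w - w'‖ ≤ s := by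
      intro w hw w' hw'
      obtain ⟨u, hu, hue⟩ := hsub' hw
      obtain ⟨v, hv, hve⟩ := hsub' hw'
      rw [← hue, ← hve]
      exact hdiam' u hu v hv
    have hlip := lip_of_bounds hr hball hdiam
    have hder0 : ∀ z ∈ closedBall (0 : ℂ) (r / 2), ‖deriv ((fc d c)^[p]) z‖ ≤ 2 * C := by
      have := der_of_bounds hr hball hdiam 0
      rwa [Nat.mul_zero, P_zero] at this
    have hsm := deriv_small hd hp hr hder0
    have hfol : ∀ w : ℂ, ‖w‖ ≤ s → ∀ j ≤ m,
        ‖((fc d c)^[p])^[j] w - P d (p * j) c‖ ≤ r / 2 := by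
      intro w hw j hj
      have h1 := follow hL1 (half_pos hr).le hlip 0 (x := w) (n := m) (by
        rw [Nat.mul_zero, P_zero, sub_zero]
        exact (mul_le_mul_of_nonneg_left hw (by positivity)).trans h) j (by omega)
      rw [Nat.mul_zero, P_zero, sub_zero, Nat.zero_add] at h1
      refine h1.trans ?_
      have h2 : (2 * C) ^ j ≤ (2 * C) ^ m := pow_le_pow_right₀ hL1 hj
      calc (2 * C) ^ j * ‖w‖ ≤ (2 * C) ^ m * s := by gcongr
        _ ≤ r / 2 := h
    have hstep : ∀ w1 w2 : ℂ, ‖w1‖ ≤ s → ‖w2‖ ≤ s → ∀ j ≤ m,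
        ‖((fc d c)^[p])^[j + 1] w1 - ((fc d c)^[p])^[j + 1] w2‖ ≤
          (2 * C) ^ j * (4 * C / r * s * ‖w1 - w2‖) := by
      intro w1 w2 hw1 hw2 j
      induction j with
      | zero =>
        intro _
        rw [Nat.zero_add, Function.iterate_one, pow_zero, one_mul]
        refine (convex_closedBall (0 : ℂ) s).norm_image_sub_le_of_norm_deriv_le
          (fun z _ => (diff_it_y d p c) z) (fun z hz => ?_)
          (mem_closedBall_zero_iff.2 hw2) (mem_closedBall_zero_iff.2 hw1)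
        rw [mem_closedBall_zero_iff] at hz
        refine (hsm z (mem_ball_zero_iff.2 (by linarith))).trans ?_
        have : 0 ≤ 4 * C / r := by positivity
        exact mul_le_mul_of_nonneg_left hz this
      | succ j ih =>
        intro hj
        have h1 := ih (by omega)
        rw [Function.iterate_succ_apply' _ (j + 1), Function.iterate_succ_apply' _ (j + 1)]
        refine (hlip (j + 1) _ _ (hfol w1 hw1 _ hj) (hfol w2 hw2 _ hj)).trans ?_
        rw [pow_succ']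
        calc 2 * C * ‖((fc d c)^[p])^[j + 1] w1 - ((fc d c)^[p])^[j + 1] w2‖
            ≤ 2 * C * ((2 * C) ^ j * (4 * C / r * s * ‖w1 - w2‖)) := by gcongr
          _ = 2 * C * (2 * C) ^ j * (4 * C / r * s * ‖w1 - w2‖) := by ring
    have key : ∀ t : ℝ, t < r' → t ≤ (2 * C) ^ (m + 1) * (s * s) / r := by
      intro t0 ht0
      obtain ⟨t, ht⟩ : ∃ t, t = max t0 0 := ⟨_, rfl⟩
      have htn : 0 ≤ t := by rw [ht]; exact le_max_right _ _
      have htr : t < r' := by rw [ht]; exact max_lt ht0 hr'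
      have ht1 : t0 ≤ t := by rw [ht]; exact le_max_left _ _
      have hz1 : ((t : ℝ) : ℂ) ∈ ball (0 : ℂ) r' := by
        rw [mem_ball_zero_iff, Complex.norm_real, Real.norm_of_nonneg htn]
        exact htr
      have hz2 : (((-t : ℝ) : ℝ) : ℂ) ∈ ball (0 : ℂ) r' := by
        rw [mem_ball_zero_iff, Complex.norm_real, Real.norm_eq_abs, abs_neg, abs_of_nonneg htn]
        exact htr
      obtain ⟨w1, hw1, hw1e⟩ := hsub' (hb0 hz1)
      obtain ⟨w2, hw2, hw2e⟩ := hsub' (hb0 hz2)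
      have hn1 : ‖w1‖ ≤ s := by
        have := hU's w1 hw1 0 h0U
        rwa [sub_zero] at this
      have hn2 : ‖w2‖ ≤ s := by
        have := hU's w2 hw2 0 h0U
        rwa [sub_zero] at this
      have h2 := hstep w1 w2 hn1 hn2 m le_rfl
      rw [← Function.iterate_mul, hw1e, hw2e, ← Complex.ofReal_sub, Complex.norm_real,
        sub_neg_eq_add, Real.norm_of_nonneg (by linarith)] at h2
      have h3 : (2 * C) ^ m * (4 * C / r * s * ‖w1 - w2‖) ≤ (2 * C) ^ m * (4 * C / r * s * s) := by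
        have := hU's w1 hw1 w2 hw2
        gcongr
      have h4 : (2 * C) ^ m * (4 * C / r * s * s) = 2 * ((2 * C) ^ (m + 1) * (s * s) / r) := by
        rw [pow_succ]
        field_simp
        ring
      linarith
    have h5 : r' ≤ (2 * C) ^ (m + 1) * (s * s) / r := le_of_forall_lt_imp_le_of_dense key
    rw [le_div_iff₀ hr, hs] at h5
    have h6 : r' * r ≤ r' * (r' * (C' ^ 2 * (2 * C) ^ (m + 1))) := by
      refine h5.trans (le_of_eq ?_)
      ring
    exact le_of_mul_le_mul_left h6 hr'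
  · push Not at h'
    have h1 : r < 4 * ((2 * C) ^ m * (C' * r')) := by linarith
    refine h1.le.trans ?_
    have h2 : (2 * C) ^ (m + 1) = (2 * C) ^ m * (2 * C) := pow_succ _ _
    rw [h2]
    have h3 : 0 ≤ (2 * C) ^ m * (C' * r') := by positivity
    have h4 : 4 ≤ C' * (2 * C) := by nlinarith
    calc 4 * ((2 * C) ^ m * (C' * r')) ≤ (C' * (2 * C)) * ((2 * C) ^ m * (C' * r')) := by gcongr
      _ = r' * (C' ^ 2 * ((2 * C) ^ m * (2 * C))) := by ring

theorem dev_step {c : ℂ} {p q : ℕ} {e S r L e' : ℝ} (hL : 2 ≤ L) (hS : 0 ≤ S)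
    (he0 : 0 ≤ e) (her : e ≤ r) (hlip : Lip d p c r L) (hdev : Dev d p c e S)
    (he' : 2 * (e' * L ^ q) ≤ e) : Dev d (p * q) c e' (S * L ^ q) := by
  intro i x c' hx hc'
  have hL1 : 1 ≤ L := by linarith
  have hL0 : 0 < L := by linarith
  obtain ⟨δ, hδ⟩ : ∃ δ, δ = ‖c' - c‖ := ⟨_, rfl⟩
  rw [← hδ] at hc' ⊢
  have hδ0 : 0 ≤ δ := by rw [hδ]; exact norm_nonneg _
  have hLq : 1 ≤ L ^ q := one_le_pow₀ hL1
  have hSδ : 0 ≤ S * δ := by positivity
  have hidx : p * q * i = p * (q * i) := by ring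
  rw [hidx] at hx
  have hxe : L ^ q * ‖x - P d (p * (q * i)) c‖ ≤ e / 2 := by
    have : L ^ q * ‖x - P d (p * (q * i)) c‖ ≤ L ^ q * e' :=
      mul_le_mul_of_nonneg_left hx (by positivity)
    linarith
  have hSe : S * δ * L ^ q ≤ e / 2 := by
    have h1 : e' ≤ e' * L ^ q ∨ e' < 0 := by
      rcases le_or_gt 0 e' with h | h
      · exact Or.inl (le_mul_of_one_le_right h hLq)
      · exact Or.inr h
    have h2 : S * L ^ q * δ = S * δ * L ^ q := by ring
    rw [h2] at hc'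
    rcases h1 with h | h <;> linarith
  have hfol := follow hL1 (he0.trans her) hlip (q * i) (x := x) (n := q) (by linarith)
  have hfol' : ∀ j ≤ q, ‖((fc d c)^[p])^[j] x - P d (p * (q * i + j)) c‖ ≤ e / 2 := by
    intro j hj
    refine (hfol j (by omega)).trans (le_trans ?_ hxe)
    exact mul_le_mul_of_nonneg_right (pow_le_pow_right₀ hL1 hj) (norm_nonneg _)
  have key : ∀ j ≤ q, ‖((fc d c')^[p])^[j] x - ((fc d c)^[p])^[j] x‖ ≤ S * δ * (L ^ j - 1) := by
    intro j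
    induction j with
    | zero =>
      intro _
      simp
    | succ j ih =>
      intro hj
      have h1 := ih (by omega)
      have hLj : L ^ j ≤ L ^ q := pow_le_pow_right₀ hL1 (by omega)
      have h2 : ‖((fc d c')^[p])^[j] x - ((fc d c)^[p])^[j] x‖ ≤ e / 2 := by
        refine h1.trans (le_trans ?_ hSe)
        apply mul_le_mul_of_nonneg_left _ hSδ
        linarith
      have h3 := hfol' j (by omega)
      have h4 : ‖((fc d c')^[p])^[j] x - P d (p * (q * i + j)) c‖ ≤ e := by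
        have := norm_add_le (((fc d c')^[p])^[j] x - ((fc d c)^[p])^[j] x)
          (((fc d c)^[p])^[j] x - P d (p * (q * i + j)) c)
        rw [sub_add_sub_cancel] at this
        linarith
      have h5 : S * ‖c' - c‖ ≤ e := by
        rw [← hδ]
        have : S * δ ≤ S * δ * L ^ q := le_mul_of_one_le_right hSδ hLq
        linarith
      have h6 := hdev (q * i + j) _ c' h4 h5
      rw [← hδ] at h6
      have h7 := hlip (q * i + j) _ _ (h4.trans her) ((h3.trans (by linarith)).trans her)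
      rw [Function.iterate_succ_apply' _ j, Function.iterate_succ_apply' _ j]
      have h8 := norm_add_le
        ((fc d c')^[p] (((fc d c')^[p])^[j] x) - (fc d c)^[p] (((fc d c')^[p])^[j] x))
        ((fc d c)^[p] (((fc d c')^[p])^[j] x) - (fc d c)^[p] (((fc d c)^[p])^[j] x))
      rw [sub_add_sub_cancel] at h8
      have h9 : L * ‖((fc d c')^[p])^[j] x - ((fc d c)^[p])^[j] x‖ ≤
          L * (S * δ * (L ^ j - 1)) := mul_le_mul_of_nonneg_left h1 hL0.le
      have h10 : S * δ + L * (S * δ * (L ^ j - 1)) ≤ S * δ * (L ^ (j + 1) - 1) := by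
        rw [pow_succ']
        nlinarith
      linarith
  have h1 := key q le_rfl
  rw [← Function.iterate_mul, ← Function.iterate_mul] at h1
  refine h1.trans ?_
  have : S * δ * (L ^ q - 1) ≤ S * δ * L ^ q := mul_le_mul_of_nonneg_left (by linarith) hSδ
  linarith

theorem long {c c' : ℂ} {p : ℕ} {e S r L : ℝ} (hL : 2 ≤ L) (hS : 0 ≤ S)
    (her : e ≤ r) (he0 : 0 ≤ e) (hlip : Lip d p c r L) (hdev : Dev d p c e S) (i : ℕ)
    (h : S * ‖c' - c‖ * L ^ i ≤ e) :
    ∀ j ≤ i, ‖P d (p * j) c' - P d (p * j) c‖ ≤ S * ‖c' - c‖ * (L ^ j - 1) := by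
  have hL1 : 1 ≤ L := by linarith
  have hL0 : 0 < L := by linarith
  have hSδ : 0 ≤ S * ‖c' - c‖ := by positivity
  intro j
  induction j with
  | zero =>
    intro _
    simp [P_zero]
  | succ j ih =>
    intro hj
    have h1 := ih (by omega)
    have hLj : L ^ j ≤ L ^ i := pow_le_pow_right₀ hL1 (by omega)
    have h2 : ‖P d (p * j) c' - P d (p * j) c‖ ≤ e := by
      refine h1.trans (le_trans ?_ h)
      apply mul_le_mul_of_nonneg_left _ hSδ
      linarith
    have h5 : S * ‖c' - c‖ ≤ e := by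
      have : S * ‖c' - c‖ ≤ S * ‖c' - c‖ * L ^ i :=
        le_mul_of_one_le_right hSδ (one_le_pow₀ hL1)
      linarith
    have h6 := hdev j _ c' h2 h5
    have h7 := hlip j _ (P d (p * j) c) (h2.trans her)
      (by rw [sub_self, norm_zero]; exact he0.trans her)
    have e1 : P d (p * (j + 1)) c' = (fc d c')^[p] (P d (p * j) c') := by
      rw [iter_P]; congr 1; ring
    have e2 : P d (p * (j + 1)) c = (fc d c)^[p] (P d (p * j) c) := by
      rw [iter_P]; congr 1; ring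
    rw [e1, e2]
    have h8 := norm_add_le ((fc d c')^[p] (P d (p * j) c') - (fc d c)^[p] (P d (p * j) c'))
      ((fc d c)^[p] (P d (p * j) c') - (fc d c)^[p] (P d (p * j) c))
    rw [sub_add_sub_cancel] at h8
    have h9 : L * ‖P d (p * j) c' - P d (p * j) c‖ ≤ L * (S * ‖c' - c‖ * (L ^ j - 1)) :=
      mul_le_mul_of_nonneg_left h1 hL0.le
    have h10 : S * ‖c' - c‖ + L * (S * ‖c' - c‖ * (L ^ j - 1)) ≤
        S * ‖c' - c‖ * (L ^ (j + 1) - 1) := by
      rw [pow_succ']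
      nlinarith
    linarith

/-- the lowest level, period one -/
theorem base (d : ℕ) (c : ℂ) (e : ℝ) : Dev d 1 c e 1 := by
  intro i x c' _ _
  rw [Function.iterate_one, Function.iterate_one, one_mul]
  show ‖(x ^ d + c') - (x ^ d + c)‖ ≤ ‖c' - c‖
  rw [add_sub_add_left_eq_sub]

/-- `r_lower` in terms of `BD`-like data at the period one: the disc of radius `3` -/
theorem base_bounds (hd : 2 ≤ d) {c : ℂ} (hc : c ∈ multibrotSet d) :
    (∀ n : ℕ, ball (P d (n * 1) c) 1 ⊆ ball (0 : ℂ) 3) ∧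
    ball (0 : ℂ) 3 ⊆ (fc d c)^[1] '' ball (0 : ℂ) 3 ∧
    ∀ z ∈ ball (0 : ℂ) 3, ∀ z' ∈ ball (0 : ℂ) 3,
      ‖(fc d c)^[1] z - (fc d c)^[1] z'‖ ≤ 2 * 3 ^ d * 1 := by
  have hb := (mem_multibrot_iff hd c).1 hc
  have hc2 : ‖c‖ ≤ 2 := by
    have := hb 1
    rwa [Pool.Agent.H712R2.P_one (by omega)] at this
  refine ⟨?_, ?_, ?_⟩
  · intro n z hz
    rw [mem_ball, dist_eq_norm] at hz
    rw [mem_ball_zero_iff]
    have h1 := norm_add_le (z - P d (n * 1) c) (P d (n * 1) c)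
    rw [sub_add_cancel] at h1
    have := hb (n * 1)
    linarith
  · intro z hz
    rw [mem_ball_zero_iff] at hz
    obtain ⟨w, hw⟩ : ∃ w : ℂ, w ^ d = z - c := IsAlgClosed.exists_pow_nat_eq _ (by omega)
    refine ⟨w, ?_, ?_⟩
    · rw [mem_ball_zero_iff]
      by_contra hcon
      push Not at hcon
      have h1 : (3 : ℝ) ^ 2 ≤ ‖w‖ ^ d :=
        calc (3 : ℝ) ^ 2 ≤ 3 ^ d := pow_le_pow_right₀ (by norm_num) hd
          _ ≤ ‖w‖ ^ d := pow_le_pow_left₀ (by norm_num) hcon d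
      rw [← norm_pow, hw] at h1
      have h2 := norm_sub_le z c
      linarith
    · rw [Function.iterate_one]
      show w ^ d + c = z
      rw [hw, sub_add_cancel]
  · intro z hz z' hz'
    rw [mem_ball_zero_iff] at hz hz'
    rw [Function.iterate_one]
    show ‖(z ^ d + c) - (z' ^ d + c)‖ ≤ 2 * 3 ^ d * 1
    rw [add_sub_add_right_eq_sub]
    have h1 := norm_sub_le (z ^ d) (z' ^ d)
    rw [norm_pow, norm_pow] at h1
    have h2 : ‖z‖ ^ d ≤ 3 ^ d := pow_le_pow_left₀ (norm_nonneg _) hz.le d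
    have h3 : ‖z'‖ ^ d ≤ 3 ^ d := pow_le_pow_left₀ (norm_nonneg _) hz'.le d
    linarith

end Pool.Agent.Q259.FR
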