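import Pool.Agent.Q259.FR.A

set_option autoImplicit false

/-! # Renormalizable parameters with bounds: rates, the recursion (helper259) -/

namespace Pool.Agent.Q259.FR

open Complex Filter Topology Set Metric
open Pool.Agent.H712R2 (P P_zero fc mem_multibrot_iff)
open N62a1eb23

variable {d : ℕ}

/-- bounds at the period `p` -/
def BD (d : ℕ) (c : ℂ) (p : ℕ) (C r : ℝ) (U : Set ℂ) : Prop :=
  0 < r ∧ (∀ n : ℕ, ball (P d (n * p) c) r ⊆ U) ∧ U ⊆ (fc d c)^[p] '' U ∧
    ∀ z ∈ U, ∀ z' ∈ U, ‖(fc d c)^[p] z - (fc d c)^[p] z'‖ ≤ C * r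

theorem BD.two_le {c : ℂ} {p : ℕ} {C r : ℝ} {U : Set ℂ} (h : BD d c p C r U) : 2 ≤ C :=
  Pool.Agent.Q259.FR.two_le h.1 h.2.1 h.2.2.1 h.2.2.2

theorem BD.lip {c : ℂ} {p : ℕ} {C r : ℝ} {U : Set ℂ} (h : BD d c p C r U) :
    Lip d p c (r / 2) (2 * C) := lip_of_bounds h.1 h.2.1 h.2.2.2

/-- the sum of the ratios of the periods, weighted by the bounds -/
noncomputable def Sg (p : ℕ → ℕ) (C : ℕ → ℝ) (k : ℕ) : ℝ :=
  ∑ j ∈ Finset.range k, (p (j + 1) : ℝ) / p j * Real.log (C j)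

theorem log_two_mul {C : ℝ} (hC : 2 ≤ C) : Real.log (2 * C) ≤ 2 * Real.log C := by
  rw [Real.log_mul (by norm_num) (by linarith)]
  have := Real.log_le_log (by norm_num) hC
  linarith

theorem levels (hd : 2 ≤ d) {c : ℂ} {p : ℕ → ℕ} {C r : ℕ → ℝ} {U : ℕ → Set ℂ} {K : ℕ}
    (hp0 : p 0 = 1) (hr0 : r 0 = 1) (hp1 : ∀ k ≤ K, 1 ≤ p k) (hdvd : ∀ k < K, p k ∣ p (k + 1))
    (hB : ∀ k ≤ K, BD d c (p k) (C k) (r k) (U k)) :
    ∀ k ≤ K, ∃ e S : ℝ, 0 < e ∧ e ≤ 1 ∧ e ≤ r k / 2 ∧ 1 ≤ S ∧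
      Dev d (p k) c e S ∧ Real.log S ≤ 2 * Sg p C k ∧
      -Real.log e ≤ 1 + 4 * Sg p C k + 2 * Real.log (C k) ∧
      -Real.log (r k / 2) ≤ 1 + 4 * Sg p C k + 2 * Real.log (C k) := by
  have hC2 : ∀ k ≤ K, 2 ≤ C k := fun k hk => (hB k hk).two_le
  have hlogC : ∀ k ≤ K, Real.log 2 ≤ Real.log (C k) := fun k hk =>
    Real.log_le_log (by norm_num) (hC2 k hk)
  have hlog2 : 0 < Real.log 2 := Real.log_pos (by norm_num)
  have hlog2' : Real.log 2 ≤ 1 := by
    have := Real.log_two_lt_d9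
    linarith
  have hr : ∀ k ≤ K, 0 < r k := fun k hk => (hB k hk).1
  intro k
  induction k with
  | zero =>
    intro _
    have h2 := hlogC 0 (Nat.zero_le K)
    have h3 : Sg p C 0 = 0 := by simp [Sg]
    have h4 : Real.log (1 / 2) = -Real.log 2 := by
      rw [one_div, Real.log_inv]
    have h5 : Dev d (p 0) c (1 / 2) 1 := by
      rw [hp0]
      exact base d c _
    refine ⟨1 / 2, 1, by norm_num, by norm_num, by rw [hr0], le_rfl, h5, ?_, ?_, ?_⟩
    · rw [h3, Real.log_one, mul_zero]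
    · rw [h3, h4]
      linarith
    · rw [h3, hr0, h4]
      linarith
  | succ k ih =>
    intro hkK
    have hk0 : k ≤ K := by omega
    obtain ⟨e, S, he0, he1, her, hS1, hdev, hb1, hb2, hb3⟩ := ih hk0
    obtain ⟨q, hq⟩ := hdvd k (by omega)
    have hq1 : 1 ≤ q := by
      rcases Nat.eq_zero_or_pos q with h | h
      · rw [h, Nat.mul_zero] at hq
        have := hp1 (k + 1) hkK
        omega
      · exact h
    have hpk : (0 : ℝ) < p k := by exact_mod_cast hp1 k hk0
    have hratio : (p (k + 1) : ℝ) / p k = q := by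
      rw [hq]
      push_cast
      field_simp
    have hSg : Sg p C (k + 1) = Sg p C k + q * Real.log (C k) := by
      unfold Sg
      rw [Finset.sum_range_succ, hratio]
    have hCk := hC2 k hk0
    have hCk1 := hC2 (k + 1) hkK
    have hL2 : 2 ≤ 2 * C k := by linarith
    have hL0 : 0 < 2 * C k := by linarith
    have hLq : 0 < (2 * C k) ^ q := pow_pos hL0 q
    have hlogL := log_two_mul hCk
    have hlc := hlogC k hk0
    have hlc' := hlogC (k + 1) hkK
    have hqR : (1 : ℝ) ≤ q := by exact_mod_cast hq1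
    have hqlog : (q : ℝ) * Real.log (2 * C k) ≤ 2 * (q * Real.log (C k)) := by nlinarith
    have hqlog2 : Real.log (C k) ≤ q * Real.log (C k) := by nlinarith
    -- the new radius
    have hBk1 := hB (k + 1) hkK
    rw [hq] at hBk1
    have hrl := r_lower hd (hp1 k hk0) hq1 (hr k hk0) hBk1.1 (hB k hk0).2.1 (hB k hk0).2.2.2
      hBk1.2.1 hBk1.2.2.2 hBk1.2.2.1 hCk hCk1
    have hC1pos : 0 < C (k + 1) := by linarith
    have hrlog : -Real.log (r (k + 1) / 2) ≤ -Real.log (r k / 2) + 2 * Real.log (C (k + 1)) +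
        q * Real.log (2 * C k) := by
      have h1 := Real.log_le_log (hr k hk0) hrl
      rw [Real.log_mul hBk1.1.ne' (by positivity), Real.log_mul (by positivity) hLq.ne',
        Real.log_pow, Real.log_pow] at h1
      rw [Real.log_div hBk1.1.ne' (by norm_num), Real.log_div (hr k hk0).ne' (by norm_num)]
      push_cast at h1
      linarith
    obtain ⟨e', he'⟩ : ∃ e', e' = min (r (k + 1) / 2) (e / (2 * (2 * C k) ^ q)) := ⟨_, rfl⟩
    have he'0 : 0 < e' := by
      rw [he']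
      exact lt_min (half_pos hBk1.1) (by positivity)
    have he'r : e' ≤ r (k + 1) / 2 := by rw [he']; exact min_le_left _ _
    have he'e : e' ≤ e / (2 * (2 * C k) ^ q) := by rw [he']; exact min_le_right _ _
    have he'2 : 2 * (e' * (2 * C k) ^ q) ≤ e := by
      rw [le_div_iff₀ (by positivity)] at he'e
      linarith
    have hLq1 : 1 ≤ (2 * C k) ^ q := one_le_pow₀ (by linarith)
    have he'1 : e' ≤ 1 := by nlinarith
    have hdev' := dev_step hL2 (by linarith) he0.le her (hB k hk0).lip hdev he'2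
    rw [← hq] at hdev'
    have hlogS : Real.log (S * (2 * C k) ^ q) = Real.log S + q * Real.log (2 * C k) := by
      rw [Real.log_mul (by linarith) hLq.ne', Real.log_pow]
    have hr' : -Real.log (r (k + 1) / 2) ≤ 1 + 4 * Sg p C (k + 1) +
        2 * Real.log (C (k + 1)) := by
      rw [hSg]
      linarith
    refine ⟨e', S * (2 * C k) ^ q, he'0, he'1, he'r, ?_, hdev', ?_, ?_, hr'⟩
    · exact one_le_mul_of_one_le_of_one_le hS1 hLq1
    · rw [hlogS, hSg]
      linarith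
    · rcases min_choice (r (k + 1) / 2) (e / (2 * (2 * C k) ^ q)) with h | h
      · rw [he', h]
        exact hr'
      · rw [he', h, Real.log_div he0.ne' (by positivity), Real.log_mul (by norm_num) hLq.ne',
          Real.log_pow, hSg]
        linarith

/-- The orbits at the times `p K * i`, for a chain which starts with the period one. -/
theorem main_dev' (hd : 2 ≤ d) {c : ℂ} (hc : c ∈ multibrotSet d) {p : ℕ → ℕ} {C r : ℕ → ℝ}
    {U : ℕ → Set ℂ} {K : ℕ}
    (hp0 : p 0 = 1) (hr0 : r 0 = 1) (hp1 : ∀ k ≤ K, 1 ≤ p k) (hdvd : ∀ k < K, p k ∣ p (k + 1))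
    (hB : ∀ k ≤ K, BD d c (p k) (C k) (r k) (U k)) (i : ℕ) (c' : ℂ)
    (hc' : ‖c' - c‖ ≤ Real.exp (-(1 + 6 * Sg p C K + (2 + 2 * i) * Real.log (C K)))) :
    ‖P d (p K * i) c'‖ ≤ 3 := by
  have hb := (mem_multibrot_iff hd c).1 hc
  obtain ⟨e, S, he0, he1, her, hS1, hdev, hb1, hb2, -⟩ :=
    levels hd hp0 hr0 hp1 hdvd hB K le_rfl
  have hCk := (hB K le_rfl).two_le
  have hL2 : 2 ≤ 2 * C K := by linarith
  have hLi : 0 < (2 * C K) ^ i := pow_pos (by linarith) i
  have hlogL := log_two_mul hCk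
  have hi0 : (0 : ℝ) ≤ i := Nat.cast_nonneg i
  have h1 : S * ‖c' - c‖ * (2 * C K) ^ i ≤ e := by
    have h2 : Real.exp (-(1 + 6 * Sg p C K + (2 + 2 * i) * Real.log (C K))) ≤
        e / (S * (2 * C K) ^ i) := by
      rw [← Real.le_log_iff_exp_le (by positivity), Real.log_div he0.ne' (by positivity),
        Real.log_mul (by linarith) hLi.ne', Real.log_pow]
      have h3 : (i : ℝ) * Real.log (2 * C K) ≤ i * (2 * Real.log (C K)) :=
        mul_le_mul_of_nonneg_left hlogL hi0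
      linarith
    have h4 := hc'.trans h2
    rw [le_div_iff₀ (by positivity)] at h4
    linarith
  have h2 := long hL2 (by linarith) her he0.le (hB K le_rfl).lip hdev i h1 i le_rfl
  have h3 : ‖P d (p K * i) c' - P d (p K * i) c‖ ≤ 1 := by
    refine h2.trans (le_trans ?_ (h1.trans he1))
    apply mul_le_mul_of_nonneg_left (by linarith)
    positivity
  have h4 := norm_add_le (P d (p K * i) c' - P d (p K * i) c) (P d (p K * i) c)
  rw [sub_add_cancel] at h4
  have := hb (p K * i)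
  linarith

/-- put an element in front of a sequence -/
def pre {α : Type} (a : α) (f : ℕ → α) : ℕ → α
  | 0 => a
  | n + 1 => f n

theorem log_bound {d : ℕ} (hd : 2 ≤ d) : Real.log (2 * 3 ^ d) ≤ 2 * d := by
  have hdR : (2 : ℝ) ≤ d := by exact_mod_cast hd
  rw [Real.log_mul (by norm_num) (by positivity), Real.log_pow]
  have h1 := Real.log_two_lt_d9
  have h2 : Real.log 3 ≤ 3 / 2 := by
    rw [Real.log_le_iff_le_exp (by norm_num)]
    have := Real.quadratic_le_exp_of_nonneg (show (0 : ℝ) ≤ 3 / 2 by norm_num)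
    norm_num at this
    linarith
  have h3 : (d : ℝ) * Real.log 3 ≤ d * (3 / 2) := by gcongr
  linarith

/-- **The orbits at the times `p K * i`.** -/
theorem main_dev (hd : 2 ≤ d) {c : ℂ} (hc : c ∈ multibrotSet d) {p : ℕ → ℕ} {C r : ℕ → ℝ}
    {U : ℕ → Set ℂ} {K : ℕ} (hp1 : ∀ k ≤ K, 1 ≤ p k) (hdvd : ∀ k < K, p k ∣ p (k + 1))
    (hB : ∀ k ≤ K, BD d c (p k) (C k) (r k) (U k)) (i : ℕ) (c' : ℂ)
    (hc' : ‖c' - c‖ ≤ Real.exp (-(1 + 6 * (2 * d * p 0 + Sg p C K) +
      (2 + 2 * i) * Real.log (C K)))) :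
    ‖P d (p K * i) c'‖ ≤ 3 := by
  obtain ⟨b1, b2, b3⟩ := base_bounds hd hc
  have hSg : Sg (pre 1 p) (pre (2 * 3 ^ d) C) (K + 1) =
      Sg p C K + p 0 * Real.log (2 * 3 ^ d) := by
    unfold Sg
    rw [Finset.sum_range_succ']
    simp [pre]
  have hle : p 0 * Real.log (2 * 3 ^ d) ≤ 2 * d * p 0 := by
    have := mul_le_mul_of_nonneg_left (log_bound hd) (Nat.cast_nonneg (α := ℝ) (p 0))
    linarith
  refine main_dev' hd hc (p := pre 1 p) (C := pre (2 * 3 ^ d) C) (r := pre 1 r)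
    (U := pre (ball 0 3) U) (K := K + 1) rfl rfl ?_ ?_ ?_ i c' ?_
  · intro k hk
    rcases k with _ | k
    · exact le_rfl
    · exact hp1 k (by omega)
  · intro k hk
    rcases k with _ | k
    · exact one_dvd _
    · exact hdvd k (by omega)
  · intro k hk
    rcases k with _ | k
    · exact ⟨one_pos, b1, b2, b3⟩
    · exact hB k (by omega)
  · refine hc'.trans (Real.exp_le_exp.2 ?_)
    rw [hSg]
    show -(1 + 6 * (2 * (d : ℝ) * p 0 + Sg p C K) + (2 + 2 * i) * Real.log (C K)) ≤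
      -(1 + 6 * (Sg p C K + p 0 * Real.log (2 * 3 ^ d)) + (2 + 2 * i) * Real.log (C K))
    linarith

end Pool.Agent.Q259.FR
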