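import Pool.Agent.Q259.FR.B
import Pool.Agent.Y736.RN.G

set_option autoImplicit false

/-! # Infinitely renormalizable parameters with bounds: rates, the parameter plane (helper259) -/

namespace Pool.Agent.Q259.FR

open Complex Filter Topology Set Metric MeasureTheory Pool.Agent.H713R2
open N62a1eb23
open Pool.Agent.H712R2 (P P_succ P_one P_zero fc continuous_P mem_multibrot_iff)
open Pool.Agent.Y736.HD (Ang vol_Ang_ne)

variable {d : ℕ} {ψ : ℂ → ℂ}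

/-- the exponent of the rates -/
noncomputable def TT (A : ℝ) (p : ℕ → ℕ) (C : ℕ → ℝ) (k n : ℕ) : ℝ :=
  A * (p 0 + ∑ j ∈ Finset.range k, (p (j + 1) : ℝ) / p j * Real.log (C j) +
    (1 + (n : ℝ) / p k) * Real.log (C k))

theorem Sg_nonneg {p : ℕ → ℕ} {C : ℕ → ℝ} {k : ℕ} (hC : ∀ j < k, 1 ≤ C j) : 0 ≤ Sg p C k := by
  unfold Sg
  apply Finset.sum_nonneg
  intro j hj
  have := Real.log_nonneg (hC j (Finset.mem_range.1 hj))
  positivity

theorem core (hd : 2 ≤ d) (hψ : IsExteriorMap (multibrotSet d) ψ) {c : ℂ}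
    (hc : c ∈ multibrotSet d) {p : ℕ → ℕ} {C r : ℕ → ℝ} {U : ℕ → Set ℂ} {k : ℕ}
    (hp1 : ∀ j ≤ k, 1 ≤ p j) (hdvd : ∀ j < k, p j ∣ p (j + 1))
    (hB : ∀ j ≤ k, BD d c (p j) (C j) (r j) (U j)) (n : ℕ) (c' : ℂ)
    (hc' : ‖c' - c‖ ≤ 3 * Real.exp (-TT (15 * d) p C k n)) :
      (∀ m ≤ n, ‖P d m c'‖ ≤ 3) ∧
        ∀ w : ℂ, 1 < ‖w‖ → ψ w = c' → Real.log ‖w‖ ≤ (1 / 2) ^ (n + 4) := by
  have hb := (mem_multibrot_iff hd c).1 hc
  have hC2 : ∀ j ≤ k, 2 ≤ C j := fun j hj => (hB j hj).two_le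
  have hC1 : ∀ j ≤ k, 1 ≤ C j := fun j hj => by linarith [hC2 j hj]
  have hpk : 1 ≤ p k := hp1 k le_rfl
  have hSg : 0 ≤ Sg p C k := Sg_nonneg fun j hj => hC1 j hj.le
  have hl := Real.log_nonneg (hC1 k le_rfl)
  have hp0R : (1 : ℝ) ≤ p 0 := by exact_mod_cast hp1 0 (Nat.zero_le k)
  have hdR : (2 : ℝ) ≤ d := by exact_mod_cast hd
  obtain ⟨i, hi⟩ : ∃ i, i = n / p k + 6 := ⟨_, rfl⟩
  have hin : n + 6 ≤ p k * i := by
    have h1 := Nat.lt_mul_div_succ n (show 0 < p k by omega)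
    rw [hi]
    have h2 : p k * (n / p k + 6) = p k * (n / p k + 1) + 5 * p k := by ring
    omega
  have hiR : (i : ℝ) ≤ (n : ℝ) / p k + 6 := by
    rw [hi]
    push_cast
    have := Nat.cast_div_le (α := ℝ) (m := n) (n := p k)
    linarith
  have hnp : 0 ≤ (n : ℝ) / p k := by positivity
  have hT : 1 + 6 * (2 * d * p 0 + Sg p C k) + (2 + 2 * i) * Real.log (C k) + 2 ≤
      TT (15 * d) p C k n := by
    have e1 : TT (15 * d) p C k n = 15 * d * (p 0 + Sg p C k +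
      (1 + (n : ℝ) / p k) * Real.log (C k)) := rfl
    rw [e1]
    have h1 : (2 + 2 * (i : ℝ)) * Real.log (C k) ≤
        (14 + 2 * ((n : ℝ) / p k)) * Real.log (C k) :=
      mul_le_mul_of_nonneg_right (by linarith) hl
    have h3 : 0 ≤ (n : ℝ) / p k * Real.log (C k) := by positivity
    have h4 : 6 * Sg p C k ≤ 15 * d * Sg p C k := by nlinarith
    have h5 : (14 + 2 * ((n : ℝ) / p k)) * Real.log (C k) ≤
        15 * d * ((1 + (n : ℝ) / p k) * Real.log (C k)) := by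
      have h6 : 14 + 2 * ((n : ℝ) / p k) ≤ 15 * d * (1 + (n : ℝ) / p k) := by nlinarith
      have h7 := mul_le_mul_of_nonneg_right h6 hl
      linarith
    have h8 : (6 : ℝ) ≤ 3 * d * p 0 := by nlinarith
    nlinarith
  have hclose : ‖c' - c‖ ≤ Real.exp (-(1 + 6 * (2 * d * p 0 + Sg p C k) +
      (2 + 2 * i) * Real.log (C k))) := by
    refine hc'.trans ?_
    have h3 : (3 : ℝ) ≤ Real.exp 2 := by
      have := Real.add_one_le_exp (2 : ℝ)
      linarith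
    calc 3 * Real.exp (-TT (15 * d) p C k n) ≤ Real.exp 2 * Real.exp (-TT (15 * d) p C k n) := by
          gcongr
      _ = Real.exp (2 + -TT (15 * d) p C k n) := (Real.exp_add _ _).symm
      _ ≤ _ := Real.exp_le_exp.2 (by linarith)
  have hdev := main_dev hd hc hp1 hdvd hB i c' hclose
  have hclose1 : ‖c' - c‖ ≤ 1 := by
    refine hclose.trans ?_
    rw [Real.exp_le_one_iff]
    have h1 : 0 ≤ (2 + 2 * (i : ℝ)) * Real.log (C k) := by positivity
    have h2 : 0 ≤ 2 * (d : ℝ) * p 0 := by positivity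
    linarith
  have hc'3 : ‖c'‖ ≤ 3 := by
    have h1 := norm_add_le (c' - c) c
    rw [sub_add_cancel] at h1
    have h2 := hb 1
    rw [P_one (by omega)] at h2
    linarith
  obtain ⟨N, hN⟩ : ∃ N, p k * i = N + 1 := ⟨p k * i - 1, by omega⟩
  have hNn : n + 5 ≤ N := by omega
  have hgreen : ∀ w : ℂ, 1 < ‖w‖ → ψ w = c' → (d : ℝ) ^ N * Real.log ‖w‖ ≤ 2 := by
    intro w hw hwc
    have h1 := Pool.Agent.Y736.RN.green_lower_R hd hψ hw (n := N) (R := 3) (by norm_num)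
      (by rw [hwc]; exact hc'3) (by rw [hwc, ← hN]; exact hdev)
    have h2 := Real.log_le_log (by positivity) h1
    rw [Real.log_pow] at h2
    push_cast at h2
    have h3 : Real.log (3 + 1) ≤ 2 := by
      rw [Real.log_le_iff_le_exp (by norm_num)]
      have := Real.quadratic_le_exp_of_nonneg (show (0 : ℝ) ≤ 2 by norm_num)
      norm_num at this
      linarith
    linarith
  refine ⟨?_, ?_⟩
  · intro m hm
    by_cases hmem : c' ∈ multibrotSet d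
    · have := (mem_multibrot_iff hd c').1 hmem m
      linarith
    · rcases Nat.eq_zero_or_pos m with h0 | h0
      · rw [h0, P_zero, norm_zero]
        norm_num
      obtain ⟨m', rfl⟩ : ∃ m', m = m' + 1 := ⟨m - 1, by omega⟩
      have h2 : c' ∈ ψ '' {z | 1 < ‖z‖} := by rw [hψ.image]; exact hmem
      obtain ⟨w, hw, hwe⟩ := h2
      have hw1 : 1 < ‖w‖ := hw
      have h3 := hgreen w hw1 hwe
      obtain ⟨β, hβ⟩ := exists_beta (d := d) hd
      have h5 := Pool.Agent.H713R2.AR.P_psi_le hd hβ m' hw1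
      rw [← exteriorMap_unique hβ hψ hw1, hwe] at h5
      have hlogw : 0 ≤ Real.log ‖w‖ := Real.log_nonneg hw1.le
      have h6 : (d : ℝ) ^ m' * Real.log ‖w‖ ≤ 1 / 32 := by
        have e1 : (d : ℝ) ^ N = (d : ℝ) ^ m' * (d : ℝ) ^ (N - m') := by
          rw [← pow_add]
          congr 1
          omega
        have e2 : (64 : ℝ) ≤ (d : ℝ) ^ (N - m') := by
          calc (64 : ℝ) = 2 ^ 6 := by norm_num
            _ ≤ (d : ℝ) ^ 6 := pow_le_pow_left₀ (by norm_num) hdR 6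
            _ ≤ (d : ℝ) ^ (N - m') := pow_le_pow_right₀ (by linarith) (by omega)
        rw [e1] at h3
        have e3 : 0 ≤ (d : ℝ) ^ m' * Real.log ‖w‖ := by positivity
        nlinarith
      have h7 : ‖w‖ ^ (d ^ m') ≤ 3 / 2 := by
        have e1 : ‖w‖ ^ (d ^ m') = Real.exp ((d : ℝ) ^ m' * Real.log ‖w‖) := by
          have hw0 : 0 < ‖w‖ := by linarith
          have e2 : (d : ℝ) ^ m' * Real.log ‖w‖ = Real.log (‖w‖ ^ (d ^ m')) := by
            rw [Real.log_pow]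
            push_cast
            ring
          rw [e2, Real.exp_log (by positivity)]
        rw [e1]
        have e3 : Real.exp ((d : ℝ) ^ m' * Real.log ‖w‖) ≤ Real.exp (1 / 32) :=
          Real.exp_le_exp.2 h6
        have e4 : Real.exp (1 / 32) ≤ 3 / 2 := by
          have h8 := Real.exp_bound_div_one_sub_of_interval (x := 1 / 32) (by norm_num)
            (by norm_num)
          refine h8.trans ?_
          norm_num
        exact e3.trans e4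
      linarith
  · intro w hw hwc
    have h3 := hgreen w hw hwc
    have hlogw : 0 ≤ Real.log ‖w‖ := Real.log_nonneg hw.le
    have e2 : (2 : ℝ) ^ (n + 5) ≤ (d : ℝ) ^ N := by
      calc (2 : ℝ) ^ (n + 5) ≤ (d : ℝ) ^ (n + 5) := pow_le_pow_left₀ (by norm_num) hdR _
        _ ≤ (d : ℝ) ^ N := pow_le_pow_right₀ (by linarith) hNn
    have e3 : (2 : ℝ) ^ (n + 5) * Real.log ‖w‖ ≤ 2 :=
      (mul_le_mul_of_nonneg_right e2 hlogw).trans h3
    have e4 : (1 / 2 : ℝ) ^ (n + 4) = 2 / 2 ^ (n + 5) := by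
      rw [one_div, inv_pow, pow_succ 2 (n + 4)]
      field_simp
    rw [e4, le_div_iff₀ (by positivity)]
    linarith

/-- the image of a small arc is not too small -/
theorem loop {c₀ : ℂ} {F : ℂ → ℂ} (hF : ContinuousOn F {w | 1 ≤ ‖w‖})
    (hE : ∀ w, 1 < ‖w‖ → F w = ψ w) {ζ : ℂ} (hζ : ‖ζ‖ = 1) (hFζ : F ζ = c₀) {δ r : ℝ}
    (hδ0 : 0 < δ) (hδ1 : δ ≤ 1) (hvol : (volume (Ang ψ c₀ r)).toReal < δ) :
    ∃ ξ : ℂ, ‖ξ‖ = 1 ∧ ‖ξ - ζ‖ ≤ δ ∧ r ≤ ‖F ξ - F ζ‖ := by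
  have hpi := Real.pi_gt_three
  -- the angle of `ζ`
  obtain ⟨θ₀, hθ₀, hθζ⟩ : ∃ θ₀ : ℝ, θ₀ ∈ Ioc 0 (2 * Real.pi) ∧ exp (θ₀ * I) = ζ := by
    have h1 : exp ((arg ζ : ℝ) * I) = ζ := by
      have := Complex.norm_mul_exp_arg_mul_I ζ
      rwa [hζ, ofReal_one, one_mul] at this
    rcases le_or_gt (arg ζ) 0 with h2 | h2
    · refine ⟨arg ζ + 2 * Real.pi, ⟨?_, by linarith⟩, ?_⟩
      · have := Complex.neg_pi_lt_arg ζ
        linarith
      · push_cast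
        rw [add_mul, Complex.exp_add, Complex.exp_two_pi_mul_I, mul_one]
        exact h1
    · exact ⟨arg ζ, ⟨h2, by linarith [Complex.arg_le_pi ζ]⟩, h1⟩
  obtain ⟨s, hs0, hs1, hs2⟩ : ∃ s : ℝ, 0 ≤ s ∧ s + δ ≤ 2 * Real.pi ∧
      ∀ θ ∈ Ioc s (s + δ), |θ - θ₀| ≤ δ := by
    rcases le_or_gt δ θ₀ with h | h
    · refine ⟨θ₀ - δ, by linarith, by linarith [hθ₀.2], ?_⟩
      intro θ hθ
      rw [abs_le]
      constructor <;> linarith [hθ.1, hθ.2]
    · refine ⟨θ₀, hθ₀.1.le, by linarith, ?_⟩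
      intro θ hθ
      rw [abs_le]
      constructor <;> linarith [hθ.1, hθ.2]
  by_contra hcon
  push Not at hcon
  have hsub : Ioc s (s + δ) ⊆ Ang ψ c₀ r := by
    intro θ hθ
    refine ⟨⟨by linarith [hθ.1], hθ.2.trans hs1⟩, F (exp (θ * I)), ?_, ?_⟩
    · rw [mem_ball, dist_eq_norm, ← hFζ]
      apply hcon
      · exact Complex.norm_exp_ofReal_mul_I θ
      · rw [← hθζ]
        have h1 : exp (θ * I) - exp (θ₀ * I) = exp (θ₀ * I) * (exp (I * ((θ - θ₀ : ℝ) : ℂ)) - 1) := by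
          rw [mul_sub, ← Complex.exp_add, mul_one]
          congr 2
          push_cast
          ring
        rw [h1, norm_mul, Complex.norm_exp_ofReal_mul_I, one_mul]
        refine (Real.norm_exp_I_mul_ofReal_sub_one_le).trans ?_
        rw [Real.norm_eq_abs]
        exact hs2 θ hθ
    · have h1 : ContinuousWithinAt F {w | 1 ≤ ‖w‖} (exp (θ * I)) :=
        hF _ (by
          show 1 ≤ ‖exp (θ * I)‖
          rw [Complex.norm_exp_ofReal_mul_I])
      have h2 : Tendsto (fun ρ : ℝ => (ρ : ℂ) * exp (θ * I)) (𝓝[>] 1)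
          (𝓝[{w | 1 ≤ ‖w‖}] (exp (θ * I))) := by
        rw [tendsto_nhdsWithin_iff]
        refine ⟨?_, ?_⟩
        · have h3 : Continuous fun ρ : ℝ => (ρ : ℂ) * exp (θ * I) := by fun_prop
          have h4 := (h3.tendsto 1).mono_left (nhdsWithin_le_nhds (s := Ioi (1 : ℝ)))
          simpa using h4
        · filter_upwards [self_mem_nhdsWithin] with ρ hρ
          have hρ' : 1 < ρ := hρ
          show 1 ≤ ‖(ρ : ℂ) * exp (θ * I)‖
          rw [norm_mul, Complex.norm_exp_ofReal_mul_I, mul_one, Complex.norm_real,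
            Real.norm_of_nonneg (by linarith)]
          exact hρ'.le
      refine (h1.tendsto.comp h2).congr' ?_
      filter_upwards [self_mem_nhdsWithin] with ρ hρ
      have hρ' : 1 < ρ := hρ
      apply hE
      rw [norm_mul, Complex.norm_exp_ofReal_mul_I, mul_one, Complex.norm_real,
        Real.norm_of_nonneg (by linarith)]
      exact hρ'
  have h2 := ENNReal.toReal_mono (vol_Ang_ne ψ c₀ r) (measure_mono hsub)
  rw [Real.volume_Ioc, ENNReal.toReal_ofReal (by linarith)] at h2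
  linarith

/-- what is bounded on the scale `ρ` up to the time `n` -/
def Rt (d : ℕ) (ψ : ℂ → ℂ) (c : ℂ) (n : ℕ) (ρ : ℝ) : Prop :=
  (∀ c' ∈ ball c ρ, ∀ m ≤ n, ‖P d m c'‖ ≤ 3) ∧
  (∀ m ≤ n, ‖deriv (P d m) c‖ ≤ 1 / ρ) ∧
  (volume (Ang ψ c ρ)).toReal < (1 / 2) ^ n ∧
  sSup {x | ∃ w : ℂ, 1 < ‖w‖ ∧ ‖ψ w - c‖ ≤ ρ ∧ Real.log ‖w‖ = x} < (1 / 2) ^ n ∧
  ∀ F : ℂ → ℂ, ContinuousOn F {w : ℂ | 1 ≤ ‖w‖} → (∀ w : ℂ, 1 < ‖w‖ → F w = ψ w) →
    ∀ ζ : ℂ, ‖ζ‖ = 1 → F ζ = c →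
      ∃ ξ : ℂ, ‖ξ‖ = 1 ∧ ‖ξ - ζ‖ ≤ (1 / 2) ^ n ∧ ρ ≤ ‖F ξ - F ζ‖

theorem rate_of (hd : 2 ≤ d) (hψ : IsExteriorMap (multibrotSet d) ψ) {c : ℂ}
    (hc : c ∈ multibrotSet d) {n : ℕ} {ρ : ℝ} (hρ0 : 0 < ρ)
    (hball : ∀ c' : ℂ, ‖c' - c‖ ≤ 3 * ρ → (∀ m ≤ n, ‖P d m c'‖ ≤ 3) ∧
        ∀ w : ℂ, 1 < ‖w‖ → ψ w = c' → Real.log ‖w‖ ≤ (1 / 2) ^ (n + 4)) : Rt d ψ c n ρ := by
  have hpow : (1 / 2 : ℝ) ^ (n + 4) = (1 / 2) ^ n / 16 := by
    rw [pow_add]
    norm_num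
    ring
  have hpos : (0 : ℝ) < (1 / 2) ^ n := by positivity
  have hvol : (volume (Ang ψ c ρ)).toReal < (1 / 2) ^ n := by
    have h1 := Pool.Agent.Y736.HG.vol_le hd hψ hc hρ0 (S := (1 / 2) ^ (n + 4)) (by positivity)
      (fun w hw hw2 => (hball (ψ w) (by linarith)).2 w hw rfl)
    refine h1.trans_lt ?_
    have hlog2 := Real.log_two_gt_d9
    have hpi := Real.pi_lt_d2
    rw [div_lt_iff₀ (by linarith), hpow]
    nlinarith
  refine ⟨?_, ?_, hvol, ?_, ?_⟩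
  · intro c' hc'
    rw [mem_ball, dist_eq_norm] at hc'
    exact (hball c' (by linarith)).1
  · intro m hm
    have h1 : ‖deriv (P d m) c‖ ≤ 3 / (3 * ρ) := by
      refine Complex.norm_deriv_le_of_forall_mem_sphere_norm_le (by positivity) ?_ ?_
      · exact (differentiable_P d m).diffContOnCl
      · intro z hz
        rw [mem_sphere, dist_eq_norm] at hz
        exact (hball z hz.le).1 m hm
    refine h1.trans (le_of_eq ?_)
    field_simp
  · refine lt_of_le_of_lt (Real.sSup_le ?_ (by positivity)) (show (1 / 2 : ℝ) ^ (n + 4) < _ by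
      rw [hpow]; linarith)
    rintro x ⟨w, hw, hw2, rfl⟩
    exact (hball (ψ w) (by linarith)).2 w hw rfl
  · intro F hF hE ζ hζ hFζ
    exact loop hF hE hζ hFζ hpos (pow_le_one₀ (by norm_num) (by norm_num)) hvol

/-- **The rates.** -/
theorem rates (hd : 2 ≤ d) (hψ : IsExteriorMap (multibrotSet d) ψ) {c : ℂ}
    (hc : c ∈ multibrotSet d) {p : ℕ → ℕ} {C r : ℕ → ℝ} {U : ℕ → Set ℂ} {k : ℕ}
    (hp1 : ∀ j ≤ k, 1 ≤ p j) (hdvd : ∀ j < k, p j ∣ p (j + 1))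
    (hB : ∀ j ≤ k, BD d c (p j) (C j) (r j) (U j)) (n : ℕ) {ρ : ℝ} (hρ0 : 0 < ρ)
    (hρ : ρ ≤ Real.exp (-TT (15 * d) p C k n)) : Rt d ψ c n ρ :=
  rate_of hd hψ hc hρ0 fun c' h => core hd hψ hc hp1 hdvd hB n c' (by linarith)

end Pool.Agent.Q259.FR
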