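import Pool.Agent.Q259.FR.C

set_option autoImplicit false

/-! # Infinitely renormalizable parameters with bounds: bounded and polynomial combinatorics
(helper259) -/

namespace Pool.Agent.Q259.FR

theorem double {p : ℕ → ℕ} (hmono : StrictMono p) (hdvd : ∀ k, p k ∣ p (k + 1))
    (k : ℕ) : 2 * p k ≤ p (k + 1) := by
  obtain ⟨q, hq⟩ := hdvd k
  have hlt := hmono (Nat.lt_succ_self k)
  rw [Nat.succ_eq_add_one, hq] at hlt
  have hq2 : 2 ≤ q := by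
    by_contra hcon
    push Not at hcon
    have : p k * q ≤ p k * 1 := Nat.mul_le_mul_left _ (by omega)
    omega
  rw [hq, Nat.mul_comm]
  exact Nat.mul_le_mul_left _ hq2

theorem two_pow_le {p : ℕ → ℕ} (hp0 : 1 ≤ p 0) (hmono : StrictMono p)
    (hdvd : ∀ k, p k ∣ p (k + 1)) (k : ℕ) : 2 ^ k ≤ p k := by
  induction k with
  | zero => simpa using hp0
  | succ k ih =>
    have := double hmono hdvd k
    rw [pow_succ]
    omega

/-- the level of a time -/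
theorem level {p : ℕ → ℕ} (hmono : StrictMono p) (n : ℕ) :
    ∃ k, n < p (k + 1) ∧ (k = 0 ∨ p k ≤ n) := by
  have hex : ∃ k, n < p (k + 1) := ⟨n, lt_of_lt_of_le (Nat.lt_succ_self n) (hmono.id_le (n + 1))⟩
  classical
  refine ⟨Nat.find hex, Nat.find_spec hex, ?_⟩
  rcases Nat.eq_zero_or_pos (Nat.find hex) with h | h
  · exact Or.inl h
  · right
    have h1 := Nat.find_min hex (m := Nat.find hex - 1) (by omega)
    rw [Nat.sub_add_cancel (by omega)] at h1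
    exact not_lt.1 h1

/-- bounded combinatorics -/
theorem TT_bdd {p : ℕ → ℕ} {A C Q : ℝ} (hA : 0 < A) (hp0 : 1 ≤ p 0)
    (hmono : StrictMono p) (hdvd : ∀ k, p k ∣ p (k + 1)) (hC2 : 2 ≤ C)
    (hQ : ∀ k, (p (k + 1) : ℝ) ≤ Q * p k) {n : ℕ} (hn : 2 ≤ n) :
    ∃ k, TT A p (fun _ => C) k n ≤ 11 / 3 * A * (p 0 + Q * Real.log C) * Real.log n := by
  have hlog2 : 0 < Real.log 2 := Real.log_pos (by norm_num)
  have hlog2' := Real.log_two_gt_d9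
  obtain ⟨ℓ, hℓ⟩ : ∃ ℓ, ℓ = Real.log C := ⟨_, rfl⟩
  have hℓ0 : 0 < ℓ := by rw [hℓ]; exact Real.log_pos (by linarith)
  have hp1 : ∀ k, 1 ≤ p k := fun k => hp0.trans (hmono.monotone (Nat.zero_le k))
  have hpR : ∀ k, (0 : ℝ) < p k := fun k => by exact_mod_cast hp1 k
  have hQ2 : 2 ≤ Q := by
    have h1 := hQ 0
    have h2 := hpR 0
    have h3 : (2 : ℝ) * p 0 ≤ p (0 + 1) := by exact_mod_cast double hmono hdvd 0
    exact le_of_mul_le_mul_right (h3.trans h1) h2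
  obtain ⟨k, hk1, hk2⟩ := level hmono n
  refine ⟨k, ?_⟩
  have hnR : (2 : ℝ) ≤ n := by exact_mod_cast hn
  have hlogn : Real.log 2 ≤ Real.log n := Real.log_le_log (by norm_num) hnR
  -- `k log 2 ≤ log n`
  have hk : (k : ℝ) * Real.log 2 ≤ Real.log n := by
    rcases hk2 with h | h
    · rw [h]
      simp only [Nat.cast_zero, zero_mul]
      linarith
    · have h1 : 2 ^ k ≤ n := (two_pow_le hp0 hmono hdvd k).trans h
      have h2 : ((2 : ℝ) ^ k) ≤ n := by exact_mod_cast h1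
      have h3 := Real.log_le_log (by positivity) h2
      rwa [Real.log_pow] at h3
  have hsum : ∑ j ∈ Finset.range k, (p (j + 1) : ℝ) / p j * ℓ ≤ k * (Q * ℓ) := by
    have h1 : ∀ j ∈ Finset.range k, (p (j + 1) : ℝ) / p j * ℓ ≤ Q * ℓ := by
      intro j _
      have h2 : (p (j + 1) : ℝ) / p j ≤ Q := by
        rw [div_le_iff₀ (hpR j)]
        exact hQ j
      exact mul_le_mul_of_nonneg_right h2 hℓ0.le
    have h2 := Finset.sum_le_card_nsmul _ _ _ h1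
    rwa [Finset.card_range, nsmul_eq_mul] at h2
  have hnp : (n : ℝ) / p k ≤ Q := by
    rw [div_le_iff₀ (hpR k)]
    have : (n : ℝ) ≤ p (k + 1) := by exact_mod_cast hk1.le
    exact this.trans (hQ k)
  have hlast : (1 + (n : ℝ) / p k) * ℓ ≤ (1 + Q) * ℓ :=
    mul_le_mul_of_nonneg_right (by linarith) hℓ0.le
  have hT : TT A p (fun _ => C) k n = A * (p 0 + ∑ j ∈ Finset.range k, (p (j + 1) : ℝ) / p j * ℓ +
      (1 + (n : ℝ) / p k) * ℓ) := by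
    rw [hℓ]
    rfl
  rw [hT, ← hℓ, show 11 / 3 * A * (p 0 + Q * ℓ) * Real.log n =
    A * (11 / 3 * ((p 0 + Q * ℓ) * Real.log n)) by ring]
  apply mul_le_mul_of_nonneg_left _ hA.le
  have hp0R := hpR 0
  have h1 : (k : ℝ) * (Q * ℓ) * Real.log 2 ≤ Q * ℓ * Real.log n := by
    calc (k : ℝ) * (Q * ℓ) * Real.log 2 = Q * ℓ * (k * Real.log 2) := by ring
      _ ≤ Q * ℓ * Real.log n := by gcongr
  have h2 : (p 0 + (1 + Q) * ℓ) * Real.log 2 ≤ (p 0 + (1 + Q) * ℓ) * Real.log n := by gcongr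
  have h3 : (p 0 + ∑ j ∈ Finset.range k, (p (j + 1) : ℝ) / p j * ℓ +
      (1 + (n : ℝ) / p k) * ℓ) * Real.log 2 ≤ (p 0 + (1 + Q) * ℓ + Q * ℓ) * Real.log n := by
    calc _ ≤ (p 0 + k * (Q * ℓ) + (1 + Q) * ℓ) * Real.log 2 := by
          apply mul_le_mul_of_nonneg_right _ hlog2.le
          linarith
      _ = k * (Q * ℓ) * Real.log 2 + (p 0 + (1 + Q) * ℓ) * Real.log 2 := by ring
      _ ≤ Q * ℓ * Real.log n + (p 0 + (1 + Q) * ℓ) * Real.log n := by linarith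
      _ = (p 0 + (1 + Q) * ℓ + Q * ℓ) * Real.log n := by ring
  have h4 : p 0 + (1 + Q) * ℓ + Q * ℓ ≤ 5 / 2 * (p 0 + Q * ℓ) := by nlinarith
  have hlogn0 : 0 ≤ Real.log n := by linarith
  have h5 : (p 0 + (1 + Q) * ℓ + Q * ℓ) * Real.log n ≤ 5 / 2 * (p 0 + Q * ℓ) * Real.log n :=
    mul_le_mul_of_nonneg_right h4 hlogn0
  have h6 : 5 / 2 * (p 0 + Q * ℓ) * Real.log n ≤
      11 / 3 * ((p 0 + Q * ℓ) * Real.log n) * Real.log 2 := by
    have h7 : 0 ≤ (p 0 + Q * ℓ) * Real.log n := by positivity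
    nlinarith
  have h8 := (h3.trans h5).trans h6
  exact le_of_mul_le_mul_right h8 hlog2

/-- combinatorics of polynomial type -/
theorem TT_poly {A C Q σ : ℝ} (N : ℕ) (hA : 0 < A) (hC2 : 1 < C) (hQ0 : 0 < Q)
    (hσ0 : 0 < σ) (hσ1 : σ < 1) :
    ∃ B : ℝ, 0 < B ∧ ∀ p : ℕ → ℕ, 1 ≤ p 0 → p 0 ≤ N → StrictMono p → (∀ k, p k ∣ p (k + 1)) →
      (∀ k, (p (k + 1) : ℝ) ^ (1 - σ) ≤ Q * p k) →
      ∀ n : ℕ, 1 ≤ n → ∃ k, TT A p (fun _ => C) k n ≤ B * (n : ℝ) ^ σ := by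
  obtain ⟨ℓ, hℓ⟩ : ∃ ℓ, ℓ = Real.log C := ⟨_, rfl⟩
  have hℓ0 : 0 < ℓ := by rw [hℓ]; exact Real.log_pos hC2
  -- the geometric sum
  obtain ⟨τ, hτ⟩ : ∃ τ : ℝ, τ = (1 / 2) ^ σ := ⟨_, rfl⟩
  have hτ0 : 0 < τ := by rw [hτ]; positivity
  have hτ1 : τ < 1 := by rw [hτ]; exact Real.rpow_lt_one (by norm_num) (by norm_num) hσ0
  obtain ⟨G, hG⟩ : ∃ G : ℝ, G = 1 / (1 - τ) := ⟨_, rfl⟩
  have hτ1' : 0 < 1 - τ := by linarith
  have hG0 : 0 < G := by rw [hG]; positivity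
  have hGτ : G * τ + 1 = G := by
    rw [hG]
    field_simp
    ring
  refine ⟨A * (N + Q * ℓ * G * (N : ℝ) ^ σ + Q * ℓ * G + (1 + Q) * ℓ), by positivity, ?_⟩
  intro p hp0 hpN hmono hdvd hQ n hn
  have hp1 : ∀ k, 1 ≤ p k := fun k => hp0.trans (hmono.monotone (Nat.zero_le k))
  have hpR : ∀ k, (0 : ℝ) < p k := fun k => by exact_mod_cast hp1 k
  have hratio : ∀ (m : ℝ) (k : ℕ), 1 ≤ m → m ≤ p (k + 1) → m / p k ≤ Q * m ^ σ := by
    intro m k hm hmk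
    have hm0 : 0 < m := by linarith
    rw [div_le_iff₀ (hpR k)]
    have h1 : m ^ (1 - σ) ≤ Q * p k := by
      refine le_trans ?_ (hQ k)
      exact Real.rpow_le_rpow hm0.le hmk (by linarith)
    have h2 : m = m ^ σ * m ^ (1 - σ) := by
      rw [← Real.rpow_add hm0]
      simp
    calc m = m ^ σ * m ^ (1 - σ) := h2
      _ ≤ m ^ σ * (Q * p k) := by gcongr
      _ = Q * m ^ σ * p k := by ring
  have hsum : ∀ k, ∑ j ∈ Finset.range k, (p (j + 1) : ℝ) / p j * ℓ ≤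
      Q * ℓ * G * (p k : ℝ) ^ σ := by
    intro k
    induction k with
    | zero =>
      rw [Finset.sum_range_zero]
      positivity
    | succ k ih =>
      rw [Finset.sum_range_succ]
      have h1 : (p (k + 1) : ℝ) / p k * ℓ ≤ Q * (p (k + 1) : ℝ) ^ σ * ℓ := by
        apply mul_le_mul_of_nonneg_right _ hℓ0.le
        exact hratio _ k (by exact_mod_cast hp1 (k + 1)) le_rfl
      have h2 : (p k : ℝ) ^ σ ≤ τ * (p (k + 1) : ℝ) ^ σ := by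
        rw [hτ, ← Real.mul_rpow (by norm_num) (hpR _).le]
        apply Real.rpow_le_rpow (hpR k).le _ hσ0.le
        have h3 := double hmono hdvd k
        have h4 : (2 : ℝ) * p k ≤ p (k + 1) := by exact_mod_cast h3
        linarith
      have h3 : Q * ℓ * G * (p k : ℝ) ^ σ ≤ Q * ℓ * G * (τ * (p (k + 1) : ℝ) ^ σ) := by gcongr
      have h4 : Q * ℓ * G * (τ * (p (k + 1) : ℝ) ^ σ) + Q * (p (k + 1) : ℝ) ^ σ * ℓ =
          Q * ℓ * (G * τ + 1) * (p (k + 1) : ℝ) ^ σ := by ring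
      rw [hGτ] at h4
      linarith
  obtain ⟨k, hk1, hk2⟩ := level hmono n
  refine ⟨k, ?_⟩
  have hnR : (1 : ℝ) ≤ n := by exact_mod_cast hn
  have hnσ : (1 : ℝ) ≤ (n : ℝ) ^ σ := Real.one_le_rpow hnR hσ0.le
  have hpk : (p k : ℝ) ^ σ ≤ ((N : ℝ) ^ σ + 1) * (n : ℝ) ^ σ := by
    have h0 : 0 ≤ (N : ℝ) ^ σ := by positivity
    rcases hk2 with h | h
    · rw [h]
      have h1 : (p 0 : ℝ) ^ σ ≤ (N : ℝ) ^ σ :=
        Real.rpow_le_rpow (hpR 0).le (by exact_mod_cast hpN) hσ0.le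
      nlinarith
    · have h1 : (p k : ℝ) ^ σ ≤ (n : ℝ) ^ σ :=
        Real.rpow_le_rpow (hpR k).le (by exact_mod_cast h) hσ0.le
      nlinarith
  have hnp : (n : ℝ) / p k ≤ Q * (n : ℝ) ^ σ := hratio n k hnR (by exact_mod_cast hk1.le)
  have hlast : (1 + (n : ℝ) / p k) * ℓ ≤ (1 + Q) * (n : ℝ) ^ σ * ℓ := by
    apply mul_le_mul_of_nonneg_right _ hℓ0.le
    nlinarith
  have hs := hsum k
  have hs2 : Q * ℓ * G * (p k : ℝ) ^ σ ≤ Q * ℓ * G * (((N : ℝ) ^ σ + 1) * (n : ℝ) ^ σ) := by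
    gcongr
  have hp0N : (p 0 : ℝ) ≤ N * (n : ℝ) ^ σ := by
    have h1 : (p 0 : ℝ) ≤ N := by exact_mod_cast hpN
    have h2 : (0 : ℝ) ≤ N := Nat.cast_nonneg N
    nlinarith
  have hT : TT A p (fun _ => C) k n = A * (p 0 + ∑ j ∈ Finset.range k, (p (j + 1) : ℝ) / p j * ℓ +
      (1 + (n : ℝ) / p k) * ℓ) := by
    rw [hℓ]
    rfl
  rw [hT, mul_assoc A]
  apply mul_le_mul_of_nonneg_left _ hA.le
  have e1 : (N + Q * ℓ * G * (N : ℝ) ^ σ + Q * ℓ * G + (1 + Q) * ℓ) * (n : ℝ) ^ σ =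
      N * (n : ℝ) ^ σ + Q * ℓ * G * (((N : ℝ) ^ σ + 1) * (n : ℝ) ^ σ) +
        (1 + Q) * (n : ℝ) ^ σ * ℓ := by ring
  rw [e1]
  linarith

end Pool.Agent.Q259.FR
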